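import Pool.Agent.W5h13.MC5

/-!
# Class (c), cycles: moment-curve systems and the Lefschetz property, over every field

For the class (c) of cycles the question is settled over every field and in every dimension: the
moment-curve systems have the Lefschetz property for all `(d-1)`-cycles if `d = 1`, or if `d = 2`
and the characteristic is not two. In all the other cases, in particular for all `d ≥ 3` over every
infinite field, also of characteristic zero, it fails, and it does so for every choice of
sufficiently many pairwise distinct nonzero parameters.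

Idea of the proof. Let `W ⊂ k^V` be the space of linear dependencies of the points `p_v`; it has
dimension `|V| - d`. The cycles on `V` correspond to the functionals on `Sym^d (W^*)`, that is, to
the forms of degree `d` in divided powers, and `B^*(μ)` is the Gorenstein algebra of the form of
`μ`. If `|V| ≥ d + 5` one can take a form `∑_{i<3} X_i Y_0^{d-1-i} Y_1^i` of Perazzo, which is not a
cone but has a vanishing Hessian.
-/

set_option autoImplicit false

namespace Pool.Agent.Results.MP_487945_co.Cycles

open Pool.Agent.W5h13.MC

universe u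

/-- Let `k` be a field, `d ≥ 1`, and let `t_v ∈ k`, `v ∈ V`, be pairwise distinct and nonzero. If
`d = 1`, or if `d = 2` and `2 ≠ 0` in `k`, then for every nonzero `(d-1)`-cycle `μ` on vertices in
`V` the algebra `B^*(μ)` given by the moment-curve system has the Lefschetz property. If `d ≥ 3` and
`|V| ≥ d + 5`, or if `d = 2`, `2 = 0` in `k` and `|V| ≥ 4`, then there is a nonzero `(d-1)`-cycle
`μ` on vertices in `V` such that `B^*(μ)` does not have the Lefschetz property. -/
theorem result (k : Type u) [Field k] (d : ℕ) (V : Type) [Fintype V] [DecidableEq V] (t : V → k)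
    (ht : Function.Injective t) (ht0 : ∀ v, t v ≠ 0) :
    (d = 1 ∨ (d = 2 ∧ (2 : k) ≠ 0) →
      ∀ μ : (Fin d → V) → k, IsCycle d μ → μ ≠ 0 →
        ∀ φ : Red (supportComplex μ) (momentCurve d t) →ₗ[k] k,
          IsDegreeMap μ (momentCurve d t) φ → LefschetzMod φ) ∧
    ((3 ≤ d ∧ d + 5 ≤ Fintype.card V) ∨ (d = 2 ∧ (2 : k) = 0 ∧ 4 ≤ Fintype.card V) →
      ∃ μ : (Fin d → V) → k, IsCycle d μ ∧ μ ≠ 0 ∧
        (∃ φ : Red (supportComplex μ) (momentCurve d t) →ₗ[k] k,
          IsDegreeMap μ (momentCurve d t) φ) ∧
        ∀ φ : Red (supportComplex μ) (momentCurve d t) →ₗ[k] k,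
          IsDegreeMap μ (momentCurve d t) φ → ¬ LefschetzMod φ) := by
  refine ⟨?_, ?_⟩
  · rintro (rfl | ⟨rfl, h2⟩) μ _ hμ φ hφ
    · exact holds_one t μ hμ φ hφ
    · exact holds_two h2 t μ hμ φ hφ
  · rintro (⟨hd, hV⟩ | ⟨rfl, h2, hV⟩)
    · exact fails_three hd hV t ht ht0
    · exact fails_two h2 hV t ht ht0

end Pool.Agent.Results.MP_487945_co.Cycles
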